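import Mathlib
import Pool.Agent.H95.Gol.Basic
import Pool.Agent.H66.Gol.FSum

/-! # Polya-Vinogradov for Legendre symbols (module M4c of helper95's Golomb theorem) -/

namespace Pool.Agent.H18.Gol

open Finset Pool.Agent.H95.Gol NumberTheorySymbols

section PV

variable {p : ℕ} [hp : Fact p.Prime]

lemma norm_std_sub_one (t : ZMod p) :
    ‖(ZMod.stdAddChar t : ℂ) - 1‖ = 2 * |Real.sin (Real.pi * t.val / p)| := by
  rw [ZMod.stdAddChar_apply, ZMod.toCircle_apply]
  have h : (2 * (Real.pi : ℂ) * Complex.I * (t.val : ℂ) / (p : ℂ)) =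
      Complex.I * ((2 * (Real.pi * t.val / p) : ℝ) : ℂ) := by
    push_cast
    ring
  rw [h, Complex.norm_exp_I_mul_ofReal_sub_one, Real.norm_eq_abs, abs_mul, abs_two]
  congr 3
  ring

lemma sin_bound {v : ℕ} (h1 : 0 < v) (h2 : v < p) :
    1 / Real.sin (Real.pi * v / p) ≤ (p : ℝ) / 2 * (1 / v + 1 / ((p : ℝ) - v)) ∧
      0 < Real.sin (Real.pi * v / p) := by
  have hp0 : (0 : ℝ) < p := by exact_mod_cast hp.out.pos
  have hv0 : (0 : ℝ) < v := by exact_mod_cast h1
  have hvp : (v : ℝ) < p := by exact_mod_cast h2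
  have hpv : (0 : ℝ) < (p : ℝ) - v := by linarith
  have hpi := Real.pi_pos
  rcases le_total (2 * (v : ℝ)) p with h | h
  · have hx : Real.pi * v / p ≤ Real.pi / 2 := by
      rw [div_le_div_iff₀ hp0 (by norm_num)]
      nlinarith
    have := Real.mul_le_sin (by positivity) hx
    have h3 : 2 / Real.pi * (Real.pi * v / p) = 2 * v / p := by field_simp
    rw [h3] at this
    have h4 : (0 : ℝ) < 2 * v / p := by positivity
    refine ⟨?_, lt_of_lt_of_le h4 this⟩
    calc 1 / Real.sin (Real.pi * v / p) ≤ 1 / (2 * v / p) :=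
          one_div_le_one_div_of_le h4 this
      _ = (p : ℝ) / 2 * (1 / v) := by field_simp
      _ ≤ _ := by
          have : (0 : ℝ) < 1 / ((p : ℝ) - v) := by positivity
          nlinarith
  · have hs : Real.sin (Real.pi * v / p) = Real.sin (Real.pi * (p - v) / p) := by
      rw [show Real.pi * ((p : ℝ) - v) / p = Real.pi - Real.pi * v / p by field_simp,
        Real.sin_pi_sub]
    have hx : Real.pi * ((p : ℝ) - v) / p ≤ Real.pi / 2 := by
      rw [div_le_div_iff₀ hp0 (by norm_num)]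
      nlinarith
    have := Real.mul_le_sin (by positivity) hx
    have h3 : 2 / Real.pi * (Real.pi * ((p : ℝ) - v) / p) = 2 * ((p : ℝ) - v) / p := by field_simp
    rw [h3] at this
    rw [hs]
    have h4 : (0 : ℝ) < 2 * ((p : ℝ) - v) / p := by positivity
    refine ⟨?_, lt_of_lt_of_le h4 this⟩
    calc 1 / Real.sin (Real.pi * ((p : ℝ) - v) / p) ≤ 1 / (2 * ((p : ℝ) - v) / p) :=
          one_div_le_one_div_of_le h4 this
      _ = (p : ℝ) / 2 * (1 / ((p : ℝ) - v)) := by field_simp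
      _ ≤ _ := by
          have : (0 : ℝ) < 1 / (v : ℝ) := by positivity
          nlinarith

lemma geom_bound (t : ZMod p) (ht : t ≠ 0) (M : ℕ) :
    ‖∑ m ∈ range M, (ZMod.stdAddChar (t * (m : ZMod p)) : ℂ)‖ ≤
      (p : ℝ) / 2 * (1 / (t.val : ℝ) + 1 / ((p : ℝ) - t.val)) := by
  have hv : 0 < t.val := Nat.pos_of_ne_zero (by rwa [Ne, ZMod.val_eq_zero])
  have hvp : t.val < p := ZMod.val_lt t
  obtain ⟨h1, h2⟩ := sin_bound (p := p) hv hvp
  have hn : ‖(ZMod.stdAddChar t : ℂ) - 1‖ = 2 * Real.sin (Real.pi * t.val / p) := by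
    rw [norm_std_sub_one, abs_of_pos h2]
  have hne : (ZMod.stdAddChar t : ℂ) ≠ 1 := by
    intro h
    rw [h, sub_self, norm_zero] at hn
    linarith
  have hpow : ∀ m : ℕ, (ZMod.stdAddChar (t * (m : ZMod p)) : ℂ) = (ZMod.stdAddChar t) ^ m := by
    intro m
    rw [mul_comm, ← nsmul_eq_mul, AddChar.map_nsmul_eq_pow]
  simp_rw [hpow]
  rw [geom_sum_eq hne, norm_div, hn]
  have hnum : ‖(ZMod.stdAddChar t : ℂ) ^ M - 1‖ ≤ 2 := by
    calc _ ≤ ‖(ZMod.stdAddChar t : ℂ) ^ M‖ + ‖(1 : ℂ)‖ := norm_sub_le _ _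
      _ = 2 := by
        rw [← hpow, ZMod.stdAddChar_apply, Circle.norm_coe, norm_one]; norm_num
  calc ‖(ZMod.stdAddChar t : ℂ) ^ M - 1‖ / (2 * Real.sin (Real.pi * t.val / p)) ≤
        2 / (2 * Real.sin (Real.pi * t.val / p)) := by gcongr
    _ = 1 / Real.sin (Real.pi * t.val / p) := by field_simp
    _ ≤ _ := h1

lemma sum_inv (hp2 : 2 ≤ p) :
    ∑ t ∈ univ.filter (fun t : ZMod p => t ≠ 0),
      ((p : ℝ) / 2 * (1 / (t.val : ℝ) + 1 / ((p : ℝ) - t.val))) ≤ p * (1 + Real.log p) := by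
  have h1 : ∑ t ∈ univ.filter (fun t : ZMod p => t ≠ 0),
      ((p : ℝ) / 2 * (1 / (t.val : ℝ) + 1 / ((p : ℝ) - t.val))) =
      ∑ v ∈ Ico 1 p, ((p : ℝ) / 2 * (1 / (v : ℝ) + 1 / ((p : ℝ) - v))) := by
    refine Finset.sum_bij (fun t _ => t.val) ?_ ?_ ?_ ?_
    · intro t ht
      simp only [mem_filter, mem_univ, true_and] at ht
      rw [mem_Ico]
      exact ⟨Nat.pos_of_ne_zero (by rwa [Ne, ZMod.val_eq_zero]), ZMod.val_lt t⟩
    · intro a _ b _ h
      exact ZMod.val_injective p h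
    · intro v hv
      rw [mem_Ico] at hv
      refine ⟨(v : ZMod p), ?_, ZMod.val_cast_of_lt hv.2⟩
      simp only [mem_filter, mem_univ, true_and]
      intro h
      have := ZMod.val_cast_of_lt hv.2
      rw [h, ZMod.val_zero] at this
      omega
    · intro t _
      rfl
  rw [h1, ← mul_sum, sum_add_distrib]
  have h2 : ∑ v ∈ Ico 1 p, 1 / ((p : ℝ) - v) = ∑ v ∈ Ico 1 p, 1 / (v : ℝ) := by
    refine Finset.sum_bij (fun v _ => p - v) ?_ ?_ ?_ ?_
    · intro v hv
      rw [mem_Ico] at hv ⊢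
      omega
    · intro a ha b hb h
      rw [mem_Ico] at ha hb
      have h' : p - a = p - b := h
      omega
    · intro v hv
      rw [mem_Ico] at hv
      exact ⟨p - v, by rw [mem_Ico]; omega, by omega⟩
    · intro v hv
      rw [mem_Ico] at hv
      rw [Nat.cast_sub hv.2.le]
  have h3 : ∑ v ∈ Ico 1 p, 1 / (v : ℝ) ≤ 1 + Real.log p := by
    have h4 : ∑ v ∈ Ico 1 p, 1 / (v : ℝ) = ((harmonic (p - 1) : ℚ) : ℝ) := by
      rw [harmonic_eq_sum_Icc]
      push_cast
      have : Ico 1 p = Icc 1 (p - 1) := by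
        ext x
        rw [mem_Ico, mem_Icc]
        omega
      rw [this]
      exact sum_congr rfl fun x _ => by rw [one_div]
    rw [h4]
    refine (harmonic_le_one_add_log _).trans ?_
    have : Real.log ((p - 1 : ℕ) : ℝ) ≤ Real.log p := by
      apply Real.log_le_log
      · exact_mod_cast (by omega : 0 < p - 1)
      · exact_mod_cast Nat.sub_le _ _
    linarith
  rw [h2]
  have hp0 : (0 : ℝ) < p := by exact_mod_cast hp.out.pos
  nlinarith

/-- Polya-Vinogradov on an interval of residues modulo an odd prime. -/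
theorem pv_interval (hp2 : p ≠ 2) (c : ZMod p) (M : ℕ) :
    |∑ m ∈ range M, ((quadraticChar (ZMod p) ((m : ZMod p) + c) : ℤ) : ℝ)| ≤
      √p * (1 + Real.log p) := by
  have hp0 : (0 : ℝ) < p := by exact_mod_cast hp.out.pos
  have hchar : ringChar (ZMod p) ≠ 2 := by rwa [ZMod.ringChar_zmod_n]
  set χ : MulChar (ZMod p) ℂ := (quadraticChar (ZMod p)).ringHomComp (Int.castRingHom ℂ) with hχ
  set ψ : AddChar (ZMod p) ℂ := ZMod.stdAddChar with hψ
  have hχa : ∀ a, χ a = ((quadraticChar (ZMod p) a : ℤ) : ℂ) := fun a => by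
    simp [hχ, MulChar.ringHomComp_apply]
  have hne : χ ≠ 1 := by
    obtain ⟨a, ha⟩ := quadraticChar_exists_neg_one' hchar
    refine MulChar.ne_one_iff.mpr ⟨a, ?_⟩
    rw [hχa, ha]
    norm_num
  have hq : χ.IsQuadratic := (quadraticChar_isQuadratic (ZMod p)).comp _
  have hprim : ψ.IsPrimitive := ZMod.isPrimitive_stdAddChar p
  set g : ℂ := gaussSum χ ψ with hg
  have hg2 : ‖g‖ ^ 2 = p := by
    rw [← norm_pow, hg, gaussSum_sq hne hq hprim, norm_mul, ZMod.card, Complex.norm_natCast]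
    have : ‖χ (-1)‖ = 1 := by
      rcases hq (-1) with h | h | h
      · exfalso
        rw [hχa] at h
        have h' : quadraticChar (ZMod p) (-1) = 0 := by exact_mod_cast h
        rw [quadraticChar_eq_zero_iff] at h'
        exact (neg_ne_zero.2 one_ne_zero) h'
      · rw [h, norm_one]
      · rw [h, norm_neg, norm_one]
    rw [this, one_mul]
  have hgn : ‖g‖ = √p := by
    rw [← hg2, Real.sqrt_sq (norm_nonneg _)]
  have hg0 : g ≠ 0 := by
    intro h
    rw [h, norm_zero] at hg2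
    norm_num at hg2
    exact hp.out.ne_zero (by exact_mod_cast hg2.symm)
  -- the expansion
  have hexp : ∀ x : ZMod p, g * χ x = ∑ t : ZMod p, χ t * ψ (t * x) := by
    intro x
    by_cases hx : x = 0
    · subst hx
      rw [hχa 0, quadraticChar_zero]
      simp only [mul_zero, AddChar.map_zero_eq_one, mul_one, Int.cast_zero]
      exact (MulChar.sum_eq_zero_of_ne_one hne).symm
    · have h1 := gaussSum_mulShift_eq χ ψ (Units.mk0 x hx)
      rw [hq.inv] at h1
      simp only [Units.val_mk0] at h1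
      rw [mul_comm, ← h1]
      unfold gaussSum
      refine sum_congr rfl fun t _ => ?_
      rw [AddChar.mulShift_apply, mul_comm x t]
  have hsum : g * ∑ m ∈ range M, χ ((m : ZMod p) + c) =
      ∑ t : ZMod p, χ t * ψ (t * c) * ∑ m ∈ range M, ψ (t * (m : ZMod p)) := by
    rw [mul_sum]
    simp_rw [hexp, mul_sum]
    rw [sum_comm]
    refine sum_congr rfl fun t _ => sum_congr rfl fun m _ => ?_
    rw [mul_add, AddChar.map_add_eq_mul]
    ring
  have hbound : ‖g * ∑ m ∈ range M, χ ((m : ZMod p) + c)‖ ≤ p * (1 + Real.log p) := by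
    rw [hsum]
    refine le_trans ?_ (sum_inv (p := p) hp.out.two_le)
    rw [sum_filter]
    refine (norm_sum_le _ _).trans (sum_le_sum fun t _ => ?_)
    by_cases ht : t = 0
    · subst ht
      rw [hχa 0, quadraticChar_zero]
      simp
    · rw [if_pos ht, norm_mul, norm_mul]
      have h1 : ‖χ t‖ ≤ 1 := by
        rcases hq t with h | h | h <;> rw [h] <;> simp
      have h2 : ‖ψ (t * c)‖ = 1 := by
        rw [hψ, ZMod.stdAddChar_apply, Circle.norm_coe]
      rw [h2, mul_one]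
      calc ‖χ t‖ * ‖∑ m ∈ range M, ψ (t * (m : ZMod p))‖ ≤
            1 * ‖∑ m ∈ range M, ψ (t * (m : ZMod p))‖ := by gcongr
        _ ≤ _ := by rw [one_mul]; exact geom_bound t ht M
  have hcast : ∑ m ∈ range M, χ ((m : ZMod p) + c) =
      ((∑ m ∈ range M, ((quadraticChar (ZMod p) ((m : ZMod p) + c) : ℤ) : ℝ) : ℝ) : ℂ) := by
    rw [Complex.ofReal_sum]
    refine sum_congr rfl fun m _ => ?_
    rw [hχa]
    push_cast
    rfl
  rw [norm_mul, hcast, Complex.norm_real, hgn, Real.norm_eq_abs] at hbound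
  have hs : 0 < √(p : ℝ) := Real.sqrt_pos.2 hp0
  have hss : √(p : ℝ) * √p = p := Real.mul_self_sqrt hp0.le
  have : √(p : ℝ) * |∑ m ∈ range M, ((quadraticChar (ZMod p) ((m : ZMod p) + c) : ℤ) : ℝ)| ≤
      √p * (√p * (1 + Real.log p)) := by
    rw [← mul_assoc, hss]
    exact hbound
  exact le_of_mul_le_mul_left this hs

/-- the Legendre symbol of `4m+r` -/
lemma leg_shift (hp2 : p ≠ 2) (r m : ℕ) :
    (J(((4 * m + r : ℕ) : ℤ) | p) : ℤ) =
      quadraticChar (ZMod p) ((m : ZMod p) + (r : ZMod p) * (4 : ZMod p)⁻¹) := by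
  rw [← jacobiSym.legendreSym.to_jacobiSym]
  have h2 : (2 : ZMod p) ≠ 0 := by
    intro h
    have h3 : ((2 : ℕ) : ZMod p) = 0 := by exact_mod_cast h
    rw [ZMod.natCast_eq_zero_iff] at h3
    exact hp2 ((Nat.prime_dvd_prime_iff_eq hp.out Nat.prime_two).1 h3)
  have h4 : (4 : ZMod p) ≠ 0 := by
    rw [show (4 : ZMod p) = 2 * 2 by norm_num]
    exact mul_ne_zero h2 h2
  unfold legendreSym
  have h5 : (((4 * m + r : ℕ) : ℤ) : ZMod p) =
      4 * ((m : ZMod p) + (r : ZMod p) * (4 : ZMod p)⁻¹) := by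
    push_cast
    field_simp
  rw [h5, map_mul]
  have h6 : quadraticChar (ZMod p) 4 = 1 := by
    rw [show (4 : ZMod p) = 2 ^ 2 by norm_num]
    exact quadraticChar_sq_one' h2
  rw [h6, one_mul]

lemma F_one (hp2 : p ≠ 2) (s : ℤ) (hs : s = 1 ∨ s = -1) (m : ℕ) :
    F (s * p) (4 * m + 1) =
      ((quadraticChar (ZMod p) ((m : ZMod p) + ((1 : ℕ) : ZMod p) * (4 : ZMod p)⁻¹) : ℤ) : ℝ) := by
  have hodd : Odd (4 * m + 1) := ⟨2 * m, by ring⟩
  have hpo : Odd p := hp.out.odd_of_ne_two hp2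
  unfold F
  rw [if_pos hodd, jacobiSym.mul_left, ← leg_shift hp2 1 m,
    jacobiSym.quadratic_reciprocity_one_mod_four' hpo (by omega)]
  have h1 : J(s | 4 * m + 1) = 1 := by
    rcases hs with rfl | rfl
    · exact jacobiSym.one_left _
    · rw [jacobiSym.at_neg_one hodd, ZMod.χ₄_nat_one_mod_four (by omega)]
  rw [h1, one_mul]

lemma F_three (hp2 : p ≠ 2) (s : ℤ) (hs : s = 1 ∨ s = -1) : ∃ e : ℝ, |e| = 1 ∧ ∀ m : ℕ,
    F (s * p) (4 * m + 3) = e *
      ((quadraticChar (ZMod p) ((m : ZMod p) + ((3 : ℕ) : ZMod p) * (4 : ZMod p)⁻¹) : ℤ) : ℝ) := by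
  have hpo : Odd p := hp.out.odd_of_ne_two hp2
  have hJs : ∀ m : ℕ, J(s | 4 * m + 3) = s := by
    intro m
    have hodd : Odd (4 * m + 3) := ⟨2 * m + 1, by ring⟩
    rcases hs with rfl | rfl
    · exact jacobiSym.one_left _
    · rw [jacobiSym.at_neg_one hodd, ZMod.χ₄_nat_three_mod_four (by omega)]
  rcases Nat.odd_mod_four_iff.mp (Nat.odd_iff.1 hpo) with h | h
  · refine ⟨s, ?_, fun m => ?_⟩
    · rcases hs with rfl | rfl <;> simp
    · have hodd : Odd (4 * m + 3) := ⟨2 * m + 1, by ring⟩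
      unfold F
      rw [if_pos hodd, jacobiSym.mul_left, ← leg_shift hp2 3 m, hJs m,
        jacobiSym.quadratic_reciprocity_one_mod_four h hodd]
      push_cast
      ring
  · refine ⟨-s, ?_, fun m => ?_⟩
    · rcases hs with rfl | rfl <;> simp
    · have hodd : Odd (4 * m + 3) := ⟨2 * m + 1, by ring⟩
      unfold F
      rw [if_pos hodd, jacobiSym.mul_left, ← leg_shift hp2 3 m, hJs m,
        jacobiSym.quadratic_reciprocity_three_mod_four h (by omega)]
      push_cast
      ring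

end PV

lemma F_even (D : ℤ) {n : ℕ} (hn : Even n) : F D n = 0 := by
  unfold F
  rw [if_neg (Nat.not_odd_iff_even.2 hn)]

lemma sum_four (D : ℤ) (M : ℕ) :
    ∑ n ∈ range (4 * M), F D n =
      ∑ m ∈ range M, F D (4 * m + 1) + ∑ m ∈ range M, F D (4 * m + 3) := by
  induction M with
  | zero => simp
  | succ M ih =>
    rw [show 4 * (M + 1) = 4 * M + 1 + 1 + 1 + 1 by ring, sum_range_succ, sum_range_succ,
      sum_range_succ, sum_range_succ, ih, sum_range_succ, sum_range_succ,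
      F_even D (⟨2 * M, by ring⟩ : Even (4 * M)),
      F_even D (⟨2 * M + 1, by ring⟩ : Even (4 * M + 1 + 1))]
    ring

lemma sum_range_bound (D : ℤ) (N : ℕ) :
    |∑ n ∈ range N, F D n| ≤ |∑ m ∈ range (N / 4), F D (4 * m + 1)| +
      |∑ m ∈ range (N / 4), F D (4 * m + 3)| + 4 := by
  have h1 : 4 * (N / 4) ≤ N := Nat.mul_div_le N 4
  have h2 : ∑ n ∈ range N, F D n =
      ∑ n ∈ range (4 * (N / 4)), F D n + ∑ n ∈ Ico (4 * (N / 4)) N, F D n := by
    rw [sum_range_add_sum_Ico _ h1]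
  have h3 : |∑ n ∈ Ico (4 * (N / 4)) N, F D n| ≤ 4 := by
    calc _ ≤ ∑ n ∈ Ico (4 * (N / 4)) N, |F D n| := abs_sum_le_sum_abs _ _
      _ ≤ ∑ n ∈ Ico (4 * (N / 4)) N, (1 : ℝ) :=
          sum_le_sum fun n _ => Pool.Agent.H66.Gol.abs_F_le D n
      _ ≤ 4 := by
          rw [sum_const, Nat.card_Ico, nsmul_eq_mul, mul_one]
          have : N - 4 * (N / 4) ≤ 4 := by omega
          exact_mod_cast this
  rw [h2, sum_four]
  have := abs_add_le (∑ m ∈ range (N / 4), F D (4 * m + 1) + ∑ m ∈ range (N / 4), F D (4 * m + 3))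
    (∑ n ∈ Ico (4 * (N / 4)) N, F D n)
  have := abs_add_le (∑ m ∈ range (N / 4), F D (4 * m + 1)) (∑ m ∈ range (N / 4), F D (4 * m + 3))
  linarith

/-- M4c: Polya-Vinogradov for the characters `F (s p)`. -/
theorem F_sum_PV : ∃ C : ℝ, 0 < C ∧ ∀ (p : ℕ) (s : ℤ), p.Prime → (s = 1 ∨ s = -1) → ∀ N : ℕ,
    |∑ n ∈ Icc 1 N, F (s * p) n| ≤ C * √p * Real.log (2 * p) := by
  refine ⟨12, by norm_num, fun p s hp hs N => ?_⟩
  have : Fact p.Prime := ⟨hp⟩
  have hp2R : (2 : ℝ) ≤ p := by exact_mod_cast hp.two_le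
  have hs1 : 1 ≤ √(p : ℝ) := by
    rw [Real.one_le_sqrt]; linarith
  have hlog2 : (0.69 : ℝ) < Real.log 2 := by
    have := Real.log_two_gt_d9
    linarith
  have hlog : Real.log (2 * p) = Real.log 2 + Real.log p :=
    Real.log_mul (by norm_num) (by positivity)
  have hlogp : Real.log 2 ≤ Real.log p := Real.log_le_log (by norm_num) hp2R
  by_cases h2 : p = 2
  · subst h2
    have hns : ¬ IsSquare (s * ((2 : ℕ) : ℤ)) := by
      rcases hs with rfl | rfl
      · rintro ⟨x, hx⟩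
        have h0 : x * x = 2 := by push_cast at hx; linarith
        have h1 : x ≤ 1 := by nlinarith
        have h3 : -1 ≤ x := by nlinarith
        interval_cases x <;> omega
      · rintro ⟨x, hx⟩
        push_cast at hx
        nlinarith [mul_self_nonneg x]
    have h := Pool.Agent.H66.Gol.F_sum_trivial (s * ((2 : ℕ) : ℤ)) hns N
    have hna : (s * ((2 : ℕ) : ℤ)).natAbs = 2 := by
      rcases hs with rfl | rfl <;> rfl
    rw [hna] at h
    push_cast at h hlog hs1 ⊢
    refine h.trans ?_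
    have : 1.38 ≤ Real.log (2 * 2) := by rw [hlog]; linarith
    nlinarith
  · have hrange : ∑ n ∈ Icc 1 N, F (s * p) n = ∑ n ∈ range (N + 1), F (s * p) n := by
      have hins : range (N + 1) = insert 0 (Icc 1 N) := by
        ext x
        simp only [mem_range, mem_insert, mem_Icc]
        omega
      rw [hins, sum_insert (by simp), F_even _ (by simp : Even 0), zero_add]
    rw [hrange]
    refine (sum_range_bound _ _).trans ?_
    have hA : |∑ m ∈ range ((N + 1) / 4), F (s * p) (4 * m + 1)| ≤ √p * (1 + Real.log p) := by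
      rw [sum_congr rfl fun m _ => F_one h2 s hs m]
      exact pv_interval h2 _ _
    have hB : |∑ m ∈ range ((N + 1) / 4), F (s * p) (4 * m + 3)| ≤ √p * (1 + Real.log p) := by
      obtain ⟨e, he, h⟩ := F_three h2 s hs
      rw [sum_congr rfl fun m _ => h m, ← mul_sum, abs_mul, he, one_mul]
      exact pv_interval h2 _ _
    have h3 : (1.38 : ℝ) ≤ Real.log (2 * p) := by rw [hlog]; linarith
    have h4 : 1 + Real.log p ≤ 3 * Real.log (2 * p) := by rw [hlog]; linarith
    have h5 : √p * (1 + Real.log p) ≤ √p * (3 * Real.log (2 * p)) := by gcongr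
    nlinarith

end Pool.Agent.H18.Gol
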